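import Mathlib

namespace Pool.Agent.H.MP_b63848_al

abbrev W := List ℕ
abbrev G := List (W × W)

inductive M (X : G) : W → W → Prop
  | nil : M X [] []
  | cons {g : W × W} {u v : W} : g ∈ X → M X u v → M X (g.1 ++ u) (g.2 ++ v)

def Good (X : G) : Prop := (∀ g ∈ X, g.1 ≠ [] ∧ g.2 ≠ []) ∧
  (∀ g ∈ X, ∀ a ∈ g.1, ∃ h ∈ X, h.1 = [a]) ∧ (∀ g ∈ X, ∀ a ∈ g.2, ∃ h ∈ X, h.2 = [a])

def Dif (X : G) : Prop := ∀ u v u' v', M X u v → M X u' v → M X u' v' → M X u v'

def Bd (X : G) (L : ℕ) : Prop := ∀ g ∈ X, g.1.length ≤ L ∧ g.2.length ≤ L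

variable {X : G} {L : ℕ}

theorem M.cases {u v : W} (h : M X u v) : (u = [] ∧ v = []) ∨
    ∃ g ∈ X, ∃ u' v', M X u' v' ∧ u = g.1 ++ u' ∧ v = g.2 ++ v' := by
  cases h with
  | nil => exact .inl ⟨rfl, rfl⟩
  | cons hg h => exact .inr ⟨_, hg, _, _, h, rfl, rfl⟩

theorem M.app {u v u' v' : W} (h : M X u v) (h' : M X u' v') : M X (u ++ u') (v ++ v') := by
  induction h with
  | nil => simpa
  | cons hg _ ih => simpa only [List.append_assoc] using M.cons hg ih

theorem M.one {g : W × W} (hg : g ∈ X) : M X g.1 g.2 := by simpa using M.cons hg .nil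

theorem pos {l : W} (h : l ≠ []) : 1 ≤ l.length := List.length_pos_iff.2 h

theorem M.len (hG : Good X) (hB : Bd X L) {u v : W} (h : M X u v) :
    v.length ≤ L * u.length ∧ u.length ≤ L * v.length := by
  induction h with
  | nil => simp
  | cons hg _ ih =>
    have h1 := pos (hG.1 _ hg).1
    have h2 := pos (hG.1 _ hg).2
    have h3 := hB _ hg
    simp only [List.length_append]
    constructor <;> nlinarith [ih.1, ih.2, h3.1, h3.2]

def LA (X : G) (u : W) : Prop := ∀ a ∈ u, ∃ h ∈ X, h.1 = [a]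
def LB (X : G) (u : W) : Prop := ∀ a ∈ u, ∃ h ∈ X, h.2 = [a]

theorem M.lets (hG : Good X) {u v : W} (h : M X u v) : LA X u ∧ LB X v := by
  induction h with
  | nil => simp [LA, LB]
  | cons hg _ ih =>
    refine ⟨fun a ha => ?_, fun a ha => ?_⟩
    · rcases List.mem_append.1 ha with h | h
      exacts [hG.2.1 _ hg a h, ih.1 a h]
    · rcases List.mem_append.1 ha with h | h
      exacts [hG.2.2 _ hg a h, ih.2 a h]

theorem LA.lift {u : W} (h : LA X u) : ∃ v, M X u v := by
  induction u with
  | nil => exact ⟨[], .nil⟩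
  | cons a u ih =>
    obtain ⟨v, hv⟩ := ih fun b hb => h b (by simp [hb])
    obtain ⟨g, hg, e⟩ := h a (by simp)
    exact ⟨_, by simpa [e] using M.cons hg hv⟩

theorem LB.lift {u : W} (h : LB X u) : ∃ v, M X v u := by
  induction u with
  | nil => exact ⟨[], .nil⟩
  | cons a u ih =>
    obtain ⟨v, hv⟩ := ih fun b hb => h b (by simp [hb])
    obtain ⟨g, hg, e⟩ := h a (by simp)
    exact ⟨_, by simpa [e] using M.cons hg hv⟩

theorem LA.right {u v : W} (h : LA X (u ++ v)) : LA X v := fun a ha => h a (by simp [ha])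
theorem LB.right {u v : W} (h : LB X (u ++ v)) : LB X v := fun a ha => h a (by simp [ha])

theorem split {a a' x s : W} (h : a ++ a' = x ++ s) (hl : a.length ≤ x.length) :
    ∃ t, x = a ++ t ∧ a' = t ++ s := by
  rcases List.append_eq_append_iff.1 h with h | ⟨t, h1, h2⟩
  · exact h
  · have : t = [] := by
      rw [h1, List.length_append] at hl
      exact List.length_eq_zero_iff.1 (by omega)
    subst this
    exact ⟨[], by simpa using h1.symm, by simpa using h2.symm⟩

theorem M.cut (hB : Bd X L) {u v : W} (h : M X u v) (k l : ℕ) : ∃ a c a' c', M X a c ∧ M X a' c' ∧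
    u = a ++ a' ∧ v = c ++ c' ∧ a.length ≤ k ∧ c.length ≤ l ∧
    ((a' = [] ∧ c' = []) ∨ k < a.length + L ∨ l < c.length + L) := by
  induction h generalizing k l with
  | nil => exact ⟨[], [], [], [], .nil, .nil, rfl, rfl, by simp, by simp, .inl ⟨rfl, rfl⟩⟩
  | @cons g u v hg h ih =>
    have h3 := hB _ hg
    by_cases hc : g.1.length ≤ k ∧ g.2.length ≤ l
    · obtain ⟨a, c, a', c', h1, h2, rfl, rfl, h5, h6, h7⟩ := ih (k - g.1.length) (l - g.2.length)
      refine ⟨g.1 ++ a, g.2 ++ c, a', c', .cons hg h1, h2, by simp, by simp, ?_, ?_, ?_⟩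
      · simp only [List.length_append]; omega
      · simp only [List.length_append]; omega
      · simp only [List.length_append]
        rcases h7 with h7 | h7
        · exact .inl h7
        · right; omega
    · refine ⟨[], [], _, _, .nil, .cons hg h, rfl, rfl, by simp, by simp, .inr ?_⟩
      simp only [List.length_nil]; omega

theorem M.cutup (hB : Bd X L) {u v : W} (h : M X u v) (k : ℕ) (hk : k < u.length) :
    ∃ a c a' c', M X a c ∧ M X a' c' ∧ u = a ++ a' ∧ v = c ++ c' ∧ k < a.length ∧
      a.length ≤ k + L := by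
  induction h generalizing k with
  | nil => simp at hk
  | @cons g u v hg h ih =>
    have h3 := hB _ hg
    by_cases hc : k < g.1.length
    · exact ⟨_, _, _, _, .one hg, h, rfl, rfl, hc, by omega⟩
    · rw [List.length_append] at hk
      obtain ⟨a, c, a', c', h1, h2, rfl, rfl, h5, h6⟩ := ih (k - g.1.length) (by omega)
      refine ⟨g.1 ++ a, g.2 ++ c, a', c', .cons hg h1, h2, by simp, by simp, ?_, ?_⟩ <;>
        simp only [List.length_append] <;> omega

theorem nopump (hG : Good X) (hB : Bd X L) (hD : Dif X) {a r c : W} (h1 : M X a c)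
    (h2 : M X (a ++ r) c) : r = [] := by
  by_contra hr
  obtain ⟨s, hs⟩ := (h2.lets hG).1.right.lift
  have key : ∀ k : ℕ, ∃ b : W, k ≤ b.length ∧ M X b c := by
    intro k
    induction k with
    | zero => exact ⟨a, by simp, h1⟩
    | succ k ih =>
      obtain ⟨b, hb, hm⟩ := ih
      refine ⟨b ++ r, ?_, hD _ _ _ _ (hm.app hs) (h1.app hs) h2⟩
      have := pos hr
      rw [List.length_append]; omega
  obtain ⟨b, hb, hm⟩ := key (L * c.length + 1)
  have := (hm.len hG hB).2
  omega

theorem mono (hG : Good X) (hB : Bd X L) (hD : Dif X) {a r c c' d d' : W} (h1 : M X a c)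
    (h2 : M X (a ++ r) d) (hr : r ≠ []) (e : c ++ c' = d ++ d') : c.length < d.length := by
  by_contra hl
  obtain ⟨t, rfl, -⟩ := split e.symm (by omega)
  obtain ⟨s, hs⟩ := (h1.lets hG).2.right.lift
  have := nopump hG hB hD (r := r ++ s) h1 (by simpa using h2.app hs)
  simp [hr] at this

def cb (L k : ℕ) : ℕ := L + L * (L * (L + k) + L)

theorem cb_mono {k k' : ℕ} (h : k ≤ k') : cb L k ≤ cb L k' := by
  unfold cb; gcongr

theorem dist (hG : Good X) (hB : Bd X L) (hD : Dif X) {x s w v : W} (h1 : M X (x ++ s) v)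
    (h2 : M X (x ++ w) v) : w.length ≤ cb L s.length := by
  obtain ⟨a, c, a', c', m1, m2, e1, e2, l1, -, l3⟩ := h1.cut hB x.length v.length
  have hc' : c'.length ≤ L * (L + s.length) + L := by
    have f1 := congrArg List.length e1
    have f2 := congrArg List.length e2
    simp only [List.length_append] at f1 f2
    rcases l3 with ⟨-, rfl⟩ | l3 | l3
    · simp
    · have := (m2.len hG hB).1
      have : L * a'.length ≤ L * (L + s.length) := Nat.mul_le_mul_left _ (by omega)
      omega
    · omega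
  by_cases hk : a.length < (x ++ w).length
  · obtain ⟨b, d, b', d', n1, n2, g1, g2, k1, k2⟩ := h2.cutup hB _ hk
    obtain ⟨t, rfl, -⟩ := split e1.symm l1
    obtain ⟨r, rfl, -⟩ := split (a := a) (a' := t ++ w) (by simpa using g1) k1.le
    have hr : r ≠ [] := by rintro rfl; simp at k1
    have := mono hG hB hD m1 n1 hr (e2.symm.trans g2)
    have f1 := congrArg List.length g1
    have f2 := congrArg List.length (e2.symm.trans g2)
    simp only [List.length_append] at f1 f2 k2
    have f3 := (n2.len hG hB).2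
    have : L * d'.length ≤ L * (L * (L + s.length) + L) := Nat.mul_le_mul_left _ (by omega)
    unfold cb; omega
  · rw [List.length_append] at hk
    omega

/-- bound on the unread parts -/
def DD (L : ℕ) : ℕ := L * cb L (L * (2 * L) + 2 * L) + cb L (L * (2 * L) + 2 * L) + 2 * L

theorem small (hG : Good X) (hB : Bd X L) (hD : Dif X) {x y s t v1 u3 p q : W}
    (h1 : M X (x ++ s) v1) (h2 : M X (u3 ++ q) (v1 ++ p)) (h3 : M X u3 (y ++ t)) (h : M X x y)
    (hp : p.length ≤ 2 * L) (hq : q.length ≤ 2 * L) (hs : s.length < L ∨ t.length < L) :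
    s.length ≤ DD L ∧ t.length ≤ DD L := by
  obtain ⟨p', hp'⟩ := (h2.lets hG).2.right.lift
  obtain ⟨q', hq'⟩ := (h2.lets hG).1.right.lift
  obtain ⟨t', ht'⟩ := (h3.lets hG).2.right.lift
  have a1 : M X (x ++ (s ++ p')) (v1 ++ p) := by simpa using h1.app hp'
  have a2 : M X (x ++ (t' ++ q)) (v1 ++ p) := by
    simpa using hD _ _ _ _ ((h.app ht').app hq') (h3.app hq') h2
  have b1 := dist hG hB hD a1 a2
  have b2 := dist hG hB hD a2 a1
  have c1 := (hp'.len hG hB).2
  have c2 := ht'.len hG hB
  simp only [List.length_append] at b1 b2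
  have c3 : L * p.length ≤ L * (2 * L) := Nat.mul_le_mul_left _ hp
  unfold DD
  rcases hs with hs | hs
  · have := cb_mono (L := L) (k := s.length + p'.length) (k' := L * (2 * L) + 2 * L) (by omega)
    have : L * t'.length ≤ L * cb L (L * (2 * L) + 2 * L) := Nat.mul_le_mul_left _ (by omega)
    omega
  · have : L * t.length ≤ L * (2 * L) := Nat.mul_le_mul_left _ (by omega)
    have := cb_mono (L := L) (k := t'.length + q.length) (k' := L * (2 * L) + 2 * L) (by omega)
    omega

end Pool.Agent.H.MP_b63848_al
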