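import Pool.Agent.H.MP_b63848_al.A
import Pool.Agent.Lib.helper21.RE

namespace Pool.Agent.H.MP_b63848_al

open Pool.Agent.Lib.helper21.PR

variable {X : G} {L : ℕ}

noncomputable def step (X : G) (l : G) : G := l ++ l.flatMap fun e =>
  (X.filter fun g => cd (g.1 <+: e.1 ∧ g.2 <+: e.2)).map fun g =>
    (e.1.drop g.1.length, e.2.drop g.2.length)

noncomputable def rem (X : G) (e : W × W) : G := (step X)^[e.1.length] [e]

theorem mem_step {l : G} {c : W × W} : c ∈ step X l ↔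
    c ∈ l ∨ ∃ g ∈ X, (g.1 ++ c.1, g.2 ++ c.2) ∈ l := by
  simp only [step, List.mem_append, List.mem_flatMap, List.mem_map, List.mem_filter, cd_true]
  refine or_congr_right ⟨?_, ?_⟩
  · rintro ⟨⟨e1, e2⟩, he, g, ⟨hg, ⟨s, rfl⟩, ⟨t, rfl⟩⟩, rfl⟩
    exact ⟨g, hg, by simpa using he⟩
  · rintro ⟨g, hg, h⟩
    exact ⟨_, h, g, ⟨hg, ⟨_, rfl⟩, ⟨_, rfl⟩⟩, by simp⟩

theorem iter_sound (n : ℕ) (l : G) (c : W × W) (h : c ∈ (step X)^[n] l) :
    ∃ x y, M X x y ∧ (x ++ c.1, y ++ c.2) ∈ l := by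
  induction n generalizing l with
  | zero => exact ⟨[], [], .nil, h⟩
  | succ n ih =>
    obtain ⟨x, y, hm, h⟩ := ih _ h
    rcases mem_step.1 h with h | ⟨g, hg, h⟩
    · exact ⟨x, y, hm, h⟩
    · exact ⟨_, _, .cons hg hm, by simpa using h⟩

theorem iter_compl (hG : ∀ g ∈ X, g.1 ≠ [] ∧ g.2 ≠ []) {x y : W} (hm : M X x y) (n : ℕ) (l : G)
    (c : W × W) (hn : x.length ≤ n) (h : (x ++ c.1, y ++ c.2) ∈ l) : c ∈ (step X)^[n] l := by
  induction hm generalizing n l with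
  | nil =>
    clear hn
    induction n generalizing l with
    | zero => exact h
    | succ n ih => exact ih _ (mem_step.2 (.inl h))
  | @cons g u v hg _ ih =>
    have := pos (hG g hg).1
    rw [List.length_append] at hn
    obtain ⟨n, rfl⟩ : ∃ k, n = k + 1 := ⟨n - 1, by omega⟩
    exact ih n _ (by omega) (mem_step.2 (.inr ⟨g, hg, by simpa using h⟩))

theorem mem_rem (hG : ∀ g ∈ X, g.1 ≠ [] ∧ g.2 ≠ []) {a b : W} {c : W × W} :
    c ∈ rem X (a, b) ↔ ∃ x y, M X x y ∧ a = x ++ c.1 ∧ b = y ++ c.2 := by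
  constructor
  · intro h
    obtain ⟨x, y, hm, h⟩ := iter_sound _ _ _ h
    simp only [List.mem_singleton, Prod.mk.injEq] at h
    exact ⟨x, y, hm, h.1.symm, h.2.symm⟩
  · rintro ⟨x, y, hm, rfl, rfl⟩
    exact iter_compl hG hm _ _ _ (by simp) (by simp)

theorem nil_rem (hG : ∀ g ∈ X, g.1 ≠ [] ∧ g.2 ≠ []) {a b : W} :
    ([], []) ∈ rem X (a, b) ↔ M X a b := by
  rw [mem_rem hG]
  exact ⟨fun ⟨x, y, h, h1, h2⟩ => by simpa [h1, h2] using h, fun h => ⟨a, b, h, by simp, by simp⟩⟩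

abbrev St := W × W × G

def Sub (X P P' : G) (a b : W) : Prop := ∀ c ∈ P', ∃ d ∈ P, c ∈ rem X (d.1 ++ a, d.2 ++ b)

def Mv (X : G) (L : ℕ) (Z : List St) (z : St) (g : W × W) : Prop :=
  (z.1.length ≤ L ∧ z.2.1.length ≤ L → (z.1 ++ g.2, z.2.1 ++ g.1, z.2.2) ∈ Z) ∧
  (g.2 <+: z.1 → ∃ y ∈ Z, y.1 = z.1.drop g.2.length ∧ y.2.1 = z.2.1 ∧ Sub X z.2.2 y.2.2 g.1 []) ∧
  (g.1 <+: z.2.1 → ∃ y ∈ Z, y.1 = z.1 ∧ y.2.1 = z.2.1.drop g.1.length ∧ Sub X z.2.2 y.2.2 [] g.2)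

def Cert (X : G) (L : ℕ) (Z : List St) : Prop := Bd X L ∧
  (∃ z ∈ Z, z.1 = [] ∧ z.2.1 = [] ∧ ∀ c ∈ z.2.2, c = ([], [])) ∧
  ∀ z ∈ Z, (z.1 = [] ∧ z.2.1 = [] → ([], []) ∈ z.2.2) ∧ ∀ g ∈ X, Mv X L Z z g

theorem short {g p w w' : W} (e : p ++ w = g ++ w') (h : ¬ g <+: p) : p.length ≤ g.length := by
  by_contra hl
  obtain ⟨t, rfl, -⟩ := split e.symm (by omega)
  exact h ⟨t, rfl⟩

theorem sound_aux (hG : ∀ g ∈ X, g.1 ≠ [] ∧ g.2 ≠ []) {Z : List St} (hC : Cert X L Z) (n : ℕ) :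
    ∀ z ∈ Z, ∀ u1 u2 w2 w3, u1.length + u2.length + w3.length < n → M X u1 (z.1 ++ w2) →
      M X u2 w2 → M X (z.2.1 ++ u2) w3 → ∃ d ∈ z.2.2, M X (d.1 ++ u1) (d.2 ++ w3) := by
  induction n with
  | zero => intro _ _ _ _ _ _ h; omega
  | succ n ih =>
    rintro ⟨p, q, P⟩ hz u1 u2 w2 w3 hn h1 h2 h3
    obtain ⟨hg0, hm⟩ := hC.2.2 _ hz
    simp only at h1 h3 hg0 ⊢
    by_cases c1 : ∃ g ∈ X, ∃ u' v', M X u' v' ∧ u1 = g.1 ++ u' ∧ p ++ w2 = g.2 ++ v' ∧ g.2 <+: p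
    · obtain ⟨g, hg, u', v', m, rfl, e, t, rfl⟩ := c1
      obtain ⟨⟨p', q', P'⟩, hy, e1, e2, hs⟩ := (hm g hg).2.1 ⟨t, rfl⟩
      simp only [List.drop_left] at e1 e2 hs
      subst e1 e2
      have := pos (hG g hg).1
      rw [List.append_assoc, List.append_cancel_left_eq] at e
      rw [List.length_append] at hn
      obtain ⟨c, hc, hc'⟩ := ih _ hy u' u2 w2 w3 (by omega) (e ▸ m) h2 h3
      obtain ⟨d, hd, hr⟩ := hs c hc
      obtain ⟨x, y, mm, f1, f2⟩ := (mem_rem hG).1 hr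
      refine ⟨d, hd, ?_⟩
      rw [List.append_nil] at f2
      rw [← List.append_assoc, f1, f2, List.append_assoc, List.append_assoc]
      exact mm.app hc'
    by_cases c3 : ∃ g ∈ X, ∃ u' v', M X u' v' ∧ q ++ u2 = g.1 ++ u' ∧ w3 = g.2 ++ v' ∧ g.1 <+: q
    · obtain ⟨g, hg, u', v', m, e, rfl, t, rfl⟩ := c3
      obtain ⟨⟨p', q', P'⟩, hy, e1, e2, hs⟩ := (hm g hg).2.2 ⟨t, rfl⟩
      simp only [List.drop_left] at e1 e2 hs
      subst e1 e2
      have := pos (hG g hg).2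
      rw [List.append_assoc, List.append_cancel_left_eq] at e
      rw [List.length_append] at hn
      obtain ⟨c, hc, hc'⟩ := ih _ hy u1 u2 w2 v' (by omega) h1 h2 (e ▸ m)
      obtain ⟨d, hd, hr⟩ := hs c hc
      obtain ⟨x, y, mm, f1, f2⟩ := (mem_rem hG).1 hr
      refine ⟨d, hd, ?_⟩
      rw [List.append_nil] at f1
      rw [← List.append_assoc, f1, f2, List.append_assoc, List.append_assoc]
      exact mm.app hc'
    rcases h2.cases with ⟨rfl, rfl⟩ | ⟨g, hg, u', v', m, rfl, rfl⟩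
    · rcases h1.cases with ⟨rfl, e1⟩ | ⟨g, hg, u', v', m, e1, e2⟩
      swap
      · exact absurd ⟨g, hg, u', v', m, e1, e2, v', by simpa using e2.symm⟩ c1
      rcases h3.cases with ⟨e3, rfl⟩ | ⟨g, hg, u', v', m, e3, e4⟩
      swap
      · exact absurd ⟨g, hg, u', v', m, e3, e4, u', by simpa using e3.symm⟩ c3
      exact ⟨_, hg0 ⟨by simpa using e1, by simpa using e3⟩, .nil⟩
    · have hp : p.length ≤ L := by
        rcases h1.cases with ⟨-, e1⟩ | ⟨g, hg, u', v', m, e1, e2⟩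
        · simp [(List.append_eq_nil_iff.1 e1).1]
        · exact (short e2 fun h => c1 ⟨g, hg, u', v', m, e1, e2, h⟩).trans (hC.1 g hg).2
      have hq : q.length ≤ L := by
        rcases h3.cases with ⟨e1, -⟩ | ⟨g, hg, u', v', m, e1, e2⟩
        · simp [(List.append_eq_nil_iff.1 e1).1]
        · exact (short e1 fun h => c3 ⟨g, hg, u', v', m, e1, e2, h⟩).trans (hC.1 g hg).1
      have := pos (hG g hg).1
      rw [List.length_append] at hn
      exact ih _ ((hm g hg).1 ⟨hp, hq⟩) u1 u' v' w3 (by omega) (by simpa using h1) m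
        (by simpa using h3)

theorem sound (hG : ∀ g ∈ X, g.1 ≠ [] ∧ g.2 ≠ []) {Z : List St} (hC : Cert X L Z) : Dif X := by
  intro u v u' v' h1 h2 h3
  obtain ⟨z, hz, e1, e2, e3⟩ := hC.2.1
  obtain ⟨d, hd, h⟩ := sound_aux hG hC _ z hz u u' v v' (Nat.lt_succ_self _) (by simpa [e1])
    h2 (by simpa [e2])
  simpa [e3 d hd] using h

theorem fin_words (S : Set ℕ) (hS : S.Finite) (n : ℕ) :
    {w : W | w.length ≤ n ∧ ∀ a ∈ w, a ∈ S}.Finite := by
  induction n with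
  | zero => exact (Set.finite_singleton []).subset fun w hw => by simpa using hw.1
  | succ n ih =>
    refine ((hS.image2 List.cons ih).insert []).subset ?_
    rintro (_ | ⟨a, w⟩) ⟨h1, h2⟩
    · simp
    · exact .inr ⟨a, h2 a (by simp), w, ⟨by simpa using h1, fun b hb => h2 b (by simp [hb])⟩, rfl⟩

theorem finA (X : G) (n : ℕ) : {w : W | w.length ≤ n ∧ LA X w}.Finite := by
  refine (fin_words {a | a ∈ X.flatMap (·.1)} (List.finite_toSet _) n).subset ?_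
  rintro w ⟨h1, h2⟩
  refine ⟨h1, fun a ha => ?_⟩
  obtain ⟨g, hg, e⟩ := h2 a ha
  exact List.mem_flatMap.2 ⟨g, hg, by simp [e]⟩

theorem finB (X : G) (n : ℕ) : {w : W | w.length ≤ n ∧ LB X w}.Finite := by
  refine (fin_words {a | a ∈ X.flatMap (·.2)} (List.finite_toSet _) n).subset ?_
  rintro w ⟨h1, h2⟩
  refine ⟨h1, fun a ha => ?_⟩
  obtain ⟨g, hg, e⟩ := h2 a ha
  exact List.mem_flatMap.2 ⟨g, hg, by simp [e]⟩

theorem LA.left {u v : W} (h : LA X (u ++ v)) : LA X u := fun a ha => h a (by simp [ha])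
theorem LB.left {u v : W} (h : LB X (u ++ v)) : LB X u := fun a ha => h a (by simp [ha])

theorem complete (hG : Good X) (hB : Bd X L) (hD : Dif X) : ∃ Z, Cert X L Z := by
  obtain ⟨T, hT⟩ : ∃ T : G, ∀ c, c ∈ T ↔
      (c.1.length ≤ DD L ∧ LA X c.1) ∧ (c.2.length ≤ DD L ∧ LB X c.2) :=
    ⟨((finA X (DD L)).prod (finB X (DD L))).toFinset.toList, fun c => by simp⟩
  let P : W → W → G := fun U V => T.filter fun c => cd (c ∈ rem X (U, V))
  have hP : ∀ U V c, c ∈ P U V ↔ c ∈ T ∧ ∃ x y, M X x y ∧ U = x ++ c.1 ∧ V = y ++ c.2 := by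
    intro U V c
    simp only [P, List.mem_filter, cd_true, mem_rem hG.1]
  let S : Set St := {z | z.1.length ≤ 2 * L ∧ z.2.1.length ≤ 2 * L ∧ ∃ U v1 u3 V, M X U v1 ∧
    M X (u3 ++ z.2.1) (v1 ++ z.1) ∧ M X u3 V ∧ z.2.2 = P U V}
  have hS : S.Finite := by
    refine ((finB X (2 * L)).prod ((finA X (2 * L)).prod (List.finite_toSet T.sublists))).subset ?_
    rintro z ⟨h1, h2, U, v1, u3, V, -, m, -, e⟩
    exact ⟨⟨h1, (m.lets hG).2.right⟩, ⟨h2, (m.lets hG).1.right⟩,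
      List.mem_sublists.2 (e ▸ List.filter_sublist)⟩
  obtain ⟨Z, hZ⟩ : ∃ Z : List St, ∀ z, z ∈ Z ↔ z ∈ S := ⟨hS.toFinset.toList, fun z => by simp⟩
  have sub : ∀ {U v1 u3 V p q : W} (a b : W), p.length ≤ 2 * L → q.length ≤ 2 * L → M X U v1 →
      M X (u3 ++ q) (v1 ++ p) → M X u3 V → Sub X (P U V) (P (U ++ a) (V ++ b)) a b := by
    intro U v1 u3 V p q a b hp hq m1 m2 m3 c hc
    obtain ⟨hcT, x, y, m, e1, e2⟩ := (hP _ _ _).1 hc
    obtain ⟨x1, y1, x2, y2, n1, n2, rfl, rfl, l1, l2, l3⟩ := m.cut hB U.length V.length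
    obtain ⟨s, rfl, f1⟩ := split (a := x1) (a' := x2 ++ c.1) (by simpa using e1.symm) l1
    obtain ⟨t, rfl, f2⟩ := split (a := y1) (a' := y2 ++ c.2) (by simpa using e2.symm) l2
    refine ⟨(s, t), (hP _ _ _).2 ⟨(hT _).2 ?_, x1, y1, n1, rfl, rfl⟩,
      (mem_rem hG.1).2 ⟨x2, y2, n2, f1.symm, f2.symm⟩⟩
    have : s.length ≤ DD L ∧ t.length ≤ DD L := by
      rcases l3 with ⟨rfl, rfl⟩ | l3
      · have g1 := congrArg List.length f1
        have g2 := congrArg List.length f2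
        have := (hT c).1 hcT
        simp only [List.length_append, List.length_nil] at g1 g2
        omega
      · simp only [List.length_append] at l3
        exact small hG hB hD m1 m2 m3 n1 hp hq (by omega)
    exact ⟨⟨this.1, (m1.lets hG).1.right⟩, ⟨this.2, (m3.lets hG).2.right⟩⟩
  refine ⟨Z, hB, ⟨([], [], P [] []), (hZ _).2 ⟨by simp, by simp, [], [], [], [], .nil, .nil, .nil,
    rfl⟩, rfl, rfl, ?_⟩, ?_⟩
  · intro c hc
    obtain ⟨-, x, y, -, e1, e2⟩ := (hP _ _ _).1 hc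
    exact Prod.ext (List.append_eq_nil_iff.1 e1.symm).2 (List.append_eq_nil_iff.1 e2.symm).2
  rintro ⟨p, q, R⟩ hz
  obtain ⟨hp, hq, U, v1, u3, V, m1, m2, m3, e⟩ := (hZ _).1 hz
  simp only at hp hq m2 e
  subst e
  refine ⟨?_, fun g hg => ⟨?_, ?_, ?_⟩⟩
  · rintro ⟨rfl, rfl⟩
    refine (hP _ _ _).2 ⟨(hT _).2 (by simp [LA, LB]), U, V, ?_, by simp, by simp⟩
    exact hD _ _ _ _ m1 (by simpa using m2) m3
  · rintro ⟨h1, h2⟩
    have := hB g hg
    simp only at h1 h2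
    refine (hZ _).2 ⟨by simp only [List.length_append]; omega,
      by simp only [List.length_append]; omega, U, v1, u3, V, m1, ?_, m3, rfl⟩
    simpa using m2.app (.one hg)
  · rintro ⟨t, rfl⟩
    refine ⟨(t, q, P (U ++ g.1) (V ++ [])), (hZ _).2 ⟨?_, hq, U ++ g.1, v1 ++ g.2, u3, V,
      m1.app (.one hg), by simpa using m2, m3, by simp⟩, by simp, rfl, sub _ _ hp hq m1 m2 m3⟩
    simp only [List.length_append] at hp ⊢; omega
  · rintro ⟨t, rfl⟩
    refine ⟨(p, t, P (U ++ []) (V ++ g.2)), (hZ _).2 ⟨hp, ?_, U, v1, u3 ++ g.1, V ++ g.2,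
      m1, by simpa using m2, m3.app (.one hg), by simp⟩, rfl, by simp, sub _ _ hp hq m1 m2 m3⟩
    simp only [List.length_append] at hq ⊢; omega

theorem ex_bd (X : G) : ∃ L, Bd X L := by
  refine ⟨(X.map fun g => g.1.length + g.2.length).sum, fun g hg => ?_⟩
  have := List.single_le_sum (l := X.map fun g => g.1.length + g.2.length) (by simp) _
    (List.mem_map_of_mem hg)
  omega

attribute [local irreducible] Primrec Computable

theorem p_step : Primrec fun a : G × G => step a.1 a.2 := by unfold step; fun_prop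

@[fun_prop] theorem p_rem {α : Type} [Primcodable α] {f : α → G} {e : α → W × W} (hf : Primrec f)
    (he : Primrec e) : Primrec fun a => rem (f a) (e a) := by
  unfold rem
  exact p_iterate (by fun_prop) (by fun_prop)
    (p_step.comp ((hf.comp Primrec.fst).pair Primrec.snd))

attribute [local irreducible] rem

theorem p_sub0 : Primrec fun a : G × G × G × W × W =>
    cd (Sub a.1 a.2.1 a.2.2.1 a.2.2.2.1 a.2.2.2.2) := by unfold Sub; fun_prop

@[fun_prop] theorem p_sub {α : Type} [Primcodable α] {f g h : α → G} {u v : α → W}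
    (hf : Primrec f) (hg : Primrec g) (hh : Primrec h) (hu : Primrec u) (hv : Primrec v) :
    Primrec fun a => cd (Sub (f a) (g a) (h a) (u a) (v a)) :=
  p_sub0.comp (hf.pair (hg.pair (hh.pair (hu.pair hv))))

attribute [local irreducible] Sub

theorem p_mv0 : Primrec fun a : G × ℕ × List St × St × W × W =>
    cd (Mv a.1 a.2.1 a.2.2.1 a.2.2.2.1 a.2.2.2.2) := by unfold Mv; fun_prop

@[fun_prop] theorem p_mv {α : Type} [Primcodable α] {f : α → G} {l : α → ℕ} {Z : α → List St}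
    {z : α → St} {g : α → W × W} (hf : Primrec f) (hl : Primrec l) (hZ : Primrec Z)
    (hz : Primrec z) (hg : Primrec g) : Primrec fun a => cd (Mv (f a) (l a) (Z a) (z a) (g a)) :=
  p_mv0.comp (hf.pair (hl.pair (hZ.pair (hz.pair hg))))

attribute [local irreducible] Mv

theorem p_cert : Primrec fun a : G × ℕ × List St => cd (Cert a.1 a.2.1 a.2.2) := by
  unfold Cert Bd; fun_prop

theorem p_good : Primrec fun a : G => cd (Good a) := by unfold Good; fun_prop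

@[fun_prop] theorem p_good' {α : Type} [Primcodable α] {f : α → G} (hf : Primrec f) :
    Primrec fun a => cd (Good (f a)) := p_good.comp hf

attribute [local irreducible] Cert Good

theorem decid : ComputablePred fun X : G => Good X ∧ Dif X := by
  refine ComputablePred.computable_iff_re_compl_re'.2 ⟨?_, ?_⟩
  · refine (re_ex (R := fun (X : G) (c : ℕ × List St) => Good X ∧ Cert X c.1 c.2)
      (p_dand (p_good.comp Primrec.fst) p_cert)).of_eq fun X => ⟨?_, ?_⟩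
    · rintro ⟨c, h1, h2⟩
      exact ⟨h1, sound (by unfold Good at h1; exact h1.1) h2⟩
    · rintro ⟨h1, h2⟩
      obtain ⟨L, hL⟩ := ex_bd X
      obtain ⟨Z, hZ⟩ := complete h1 hL h2
      exact ⟨(L, Z), h1, hZ⟩
  · refine (re_ex (R := fun (X : G) (c : W × W × W × W) => ¬ Good X ∨
      (([], []) ∈ rem X (c.1, c.2.1) ∧ ([], []) ∈ rem X (c.2.2.1, c.2.1) ∧
        ([], []) ∈ rem X (c.2.2.1, c.2.2.2) ∧ ¬ ([], []) ∈ rem X (c.1, c.2.2.2)))
      (by fun_prop)).of_eq fun X => ?_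
    by_cases h : Good X
    · have h1 : ∀ g ∈ X, g.1 ≠ [] ∧ g.2 ≠ [] := by unfold Good at h; exact h.1
      simp only [h, not_true, false_or, true_and, nil_rem h1, Dif]
      push Not
      exact ⟨fun ⟨c, h⟩ => ⟨_, _, _, _, h⟩, fun ⟨a, b, c, d, h⟩ => ⟨(a, b, c, d), h⟩⟩
    · simp [h]

end Pool.Agent.H.MP_b63848_al
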